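import Pool.Agent.L7h35.GP.Stm

set_option autoImplicit false

/-! Project GP, part E1. -/

namespace Pool.Agent.L7h44.GP

open Pool.Agent.L7h35.GP

/-- the way down -/
theorem desc {M : ℕ} {a : Fin M → Fin M → Prop} (hd : ∀ x y : Fin M, (y : ℕ) + 1 = x → a x y) :
    ∀ (k : ℕ) (x y : Fin M), (x : ℕ) = y + k → Wk a k x y := by
  intro k
  induction k with
  | zero =>
    intro x y h
    exact Fin.ext (by omega)
  | succ k ih =>
    intro x y h
    have hx := x.2
    exact ⟨⟨x - 1, by omega⟩, hd _ _ (by simp only; omega), ih _ _ (by simp only; omega)⟩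

/-- combinations of two closed walks -/
theorem comb {V : Type} {a : V → V → Prop} {z : V} {M p : ℕ} (h1 : Wk a M z z) (h2 : Wk a p z z)
    (s t : ℕ) : Wk a (s * M + t * p) z z := Wk_trans (Wk_mul h1 s) (Wk_mul h2 t)

/-- `n` is a sum of multiples of `M` and `p` -/
def Sg (M p n : ℕ) : Prop := ∃ s t, n = s * M + t * p

theorem Sg_large {M p n : ℕ} (hc : Nat.Coprime p M) (h : (M - 1) * (p - 1) ≤ n) : Sg M p n := by
  obtain ⟨s, t, h1⟩ := Nat.exists_add_mul_eq_of_gcd_dvd_of_mul_pred_le M p n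
    (by rw [Nat.gcd_comm, hc.gcd_eq_one]; exact one_dvd _) h
  exact ⟨s, t, h1.symm⟩

theorem Sg_zero (M p : ℕ) : Sg M p 0 := ⟨0, 0, by simp⟩

/-- the digraph of E1 -/
def a1 (M p H : ℕ) (x y : Fin M) : Prop :=
  (y : ℕ) + 1 = x ∨ ((x : ℕ) = 0 ∧ (y : ℕ) + 1 = M) ∨
    ((x : ℕ) = H % M ∧ (y : ℕ) + 1 + (M - p) = H)

theorem a1_len {M p H : ℕ} (hp : 1 ≤ p) (hpM : p < M) (hH : M - p + 1 ≤ H) (hHM : H ≤ M)
    (z : Fin M) (hz : (z : ℕ) = 0) : ∀ (n : ℕ) (x : Fin M), Wk (a1 M p H) n x z →
      (∃ s t, n = x + (s * M + t * p)) ∨ (H ≤ x ∧ ∃ s t, n + (M - p) = x + (s * M + t * p)) := by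
  intro n
  induction n with
  | zero =>
    intro x h
    have h1 : x = z := h
    subst h1
    exact Or.inl ⟨0, 0, by simp [hz]⟩
  | succ n ih =>
    rintro x ⟨y, hxy, hy⟩
    rcases hxy with h | ⟨h, h'⟩ | ⟨h, h'⟩
    · rcases ih y hy with ⟨s, t, h1⟩ | ⟨h0, s, t, h1⟩
      · exact Or.inl ⟨s, t, by omega⟩
      · exact Or.inr ⟨by omega, s, t, by omega⟩
    · rcases ih y hy with ⟨s, t, h1⟩ | ⟨h0, s, t, h1⟩
      · refine Or.inl ⟨s + 1, t, ?_⟩
        rw [Nat.succ_mul]
        omega
      · refine Or.inl ⟨s, t + 1, ?_⟩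
        rw [Nat.succ_mul]
        omega
    · rcases ih y hy with ⟨s, t, h1⟩ | ⟨h0, s, t, h1⟩
      · rcases Nat.lt_or_ge H M with h2 | h2
        · rw [Nat.mod_eq_of_lt h2] at h
          exact Or.inr ⟨by omega, s, t, by omega⟩
        · have h3 : H = M := by omega
          rw [h3, Nat.mod_self] at h
          refine Or.inl ⟨s, t + 1, ?_⟩
          rw [Nat.succ_mul]
          omega
      · omega

theorem s_E1 (hS : S_SYM) : S_E1 := by
  intro M p H hp hpM hc hH hHM
  have hM : 0 < M := by omega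
  set z : Fin M := ⟨0, hM⟩ with hz
  set g := (M - 1) * (p - 1) with hg
  have hd : ∀ x y : Fin M, (y : ℕ) + 1 = x → a1 M p H x y := fun x y h => Or.inl h
  -- the closed walk of length `M`
  have hw1 : Wk (a1 M p H) M z z := by
    have h1 : Wk (a1 M p H) (M - 1) ⟨M - 1, by omega⟩ z := desc hd _ _ _ (by simp [hz])
    have h2 : Wk (a1 M p H) 1 z ⟨M - 1, by omega⟩ :=
      Wk_one.2 (Or.inr (Or.inl ⟨rfl, by simp only; omega⟩))
    exact Wk_cast (Wk_trans h2 h1) (by omega)
  -- from `x ≥ H` the short way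
  have hw3 : ∀ x : Fin M, H ≤ x → Wk (a1 M p H) (x - (M - p)) x z := by
    intro x hx
    have hx2 := x.2
    have h1 : Wk (a1 M p H) (x - H) x ⟨H, by omega⟩ := desc hd _ _ _ (by simp only; omega)
    have h2 : Wk (a1 M p H) 1 ⟨H, by omega⟩ ⟨H - 1 - (M - p), by omega⟩ :=
      Wk_one.2 (Or.inr (Or.inr ⟨by simp only; rw [Nat.mod_eq_of_lt (by omega)], by simp only; omega⟩))
    have h3 : Wk (a1 M p H) (H - 1 - (M - p)) ⟨H - 1 - (M - p), by omega⟩ z :=
      desc hd _ _ _ (by simp [hz])
    exact Wk_cast (Wk_trans h1 (Wk_trans h2 h3)) (by omega)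
  -- the closed walk of length `p`
  have hw2 : Wk (a1 M p H) p z z := by
    rcases Nat.lt_or_ge H M with h | h
    · have h1 := hw3 ⟨M - 1, by omega⟩ (by simp only; omega)
      have h2 : Wk (a1 M p H) 1 z ⟨M - 1, by omega⟩ :=
        Wk_one.2 (Or.inr (Or.inl ⟨rfl, by simp only; omega⟩))
      exact Wk_cast (Wk_trans h2 h1) (by simp only; omega)
    · have h1 : H = M := by omega
      have h2 : Wk (a1 M p H) 1 z ⟨p - 1, by omega⟩ :=
        Wk_one.2 (Or.inr (Or.inr ⟨by rw [h1, Nat.mod_self], by simp only; omega⟩))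
      have h3 : Wk (a1 M p H) (p - 1) ⟨p - 1, by omega⟩ z := desc hd _ _ _ (by simp [hz])
      exact Wk_cast (Wk_trans h2 h3) (by omega)
  have hcl : ∀ n, Sg M p n → Wk (a1 M p H) n z z := by
    rintro n ⟨s, t, rfl⟩
    exact comb hw1 hw2 s t
  have hlong : ∀ (x : Fin M) (n : ℕ), Sg M p n → Wk (a1 M p H) (x + n) x z := fun x n hn =>
    Wk_trans (desc hd _ _ _ (by simp [hz])) (hcl n hn)
  -- the identity for the conductor
  have hgid : ∀ u v : ℕ, u + v + 1 = g → u + v + M + p = M * p := by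
    intro u v h
    obtain ⟨m, rfl⟩ : ∃ m, M = m + 1 := ⟨M - 1, by omega⟩
    obtain ⟨q, rfl⟩ : ∃ q, p = q + 1 := ⟨p - 1, by omega⟩
    simp only [Nat.add_sub_cancel] at hg
    have h2 : (m + 1) * (q + 1) = m * q + m + q + 1 := by ring
    rw [h2, ← hg]
    omega
  have hsym : ∀ u v : ℕ, u + v + 1 = g → ¬ Sg M p v → Sg M p u := fun u v h hv =>
    (hS M p u v hp hM hc (hgid u v h)).2 hv
  refine ⟨a1 M p H, z, by omega, ?_, ?_⟩
  · intro x
    have hx := x.2
    rcases Nat.lt_or_ge (x : ℕ) H with h | h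
    · exact Wk_cast (hlong x (g + H - 1 - x) (Sg_large hc (by omega))) (by omega)
    · have hp2 : p - 1 ≤ g := by
        rw [hg]
        calc p - 1 = 1 * (p - 1) := (Nat.one_mul _).symm
          _ ≤ (M - 1) * (p - 1) := Nat.mul_le_mul_right _ (by omega)
      have hshort : ∀ n, Sg M p n → Wk (a1 M p H) (x - (M - p) + n) x z := fun n hn =>
        Wk_trans (hw3 x h) (hcl n hn)
      rcases Nat.lt_or_ge ((x : ℕ) - (M - p)) H with h1 | h1
      · exact Wk_cast (hshort (g + H - 1 - (x - (M - p))) (Sg_large hc (by omega))) (by omega)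
      · obtain ⟨c, hc2⟩ := Nat.exists_eq_add_of_le h1
        rcases Nat.eq_zero_or_pos c with h2 | h2
        · -- `x = H + e`
          have hp3 : 2 ≤ p := by omega
          have hM1 : M - 1 ≤ g := by
            rw [hg]
            calc M - 1 = (M - 1) * 1 := (Nat.mul_one _).symm
              _ ≤ (M - 1) * (p - 1) := Nat.mul_le_mul_left _ (by omega)
          have h3 : ¬ Sg M p (M - p) := by
            rintro ⟨s, t, h4⟩
            have h5 : s = 0 := by
              by_contra hcon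
              have : 1 * M ≤ s * M := Nat.mul_le_mul_right _ (by omega)
              omega
            rw [h5, Nat.zero_mul, Nat.zero_add] at h4
            have h6 : M = (t + 1) * p := by rw [Nat.succ_mul]; omega
            have h7 : p ∣ M := ⟨t + 1, by rw [h6, Nat.mul_comm]⟩
            have h8 : p ∣ 1 := by
              have := Nat.dvd_gcd (dvd_refl p) h7
              rwa [hc.gcd_eq_one] at this
            have := Nat.le_of_dvd one_pos h8
            omega
          exact Wk_cast (hlong x (g - 1 - (M - p)) (hsym _ (M - p) (by omega) h3)) (by omega)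
        · have h3 : ¬ Sg M p c := by
            rintro ⟨s, t, h4⟩
            have h5 : s = 0 := by
              by_contra hcon
              have : 1 * M ≤ s * M := Nat.mul_le_mul_right _ (by omega)
              omega
            have h6 : t = 0 := by
              by_contra hcon
              have : 1 * p ≤ t * p := Nat.mul_le_mul_right _ (by omega)
              omega
            rw [h5, h6] at h4
            omega
          exact Wk_cast (hshort (g - 1 - c) (hsym _ c (by omega) h3)) (by omega)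
  · intro k hk hk2 hf
    have h1 : Full (a1 M p H) z (g + H - 1 - 1) := Full_le hk (by omega) hf
    rcases a1_len hp hpM hH hHM z rfl _ _ (h1 ⟨H - 1, by omega⟩) with ⟨s, t, h2⟩ | ⟨h2, -⟩
    · simp only at h2
      have h3 : (s * M + t * p) + 0 + 1 = g := by omega
      exact (hS M p _ 0 hp hM hc (hgid _ _ h3)).1 ⟨s, t, rfl⟩ (Sg_zero M p)
    · simp only at h2
      omega

end Pool.Agent.L7h44.GP
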