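import Pool.Agent.L7h35.GP.Stm

set_option autoImplicit false

/-! Project GP, part SYM. -/

namespace Pool.Agent.L7h44.GP

open Pool.Agent.L7h35.GP

theorem s_SYM : S_SYM := by
  intro M p x y hp hM hc h
  constructor
  · rintro ⟨s, t, rfl⟩ ⟨s', t', rfl⟩
    have h1 : (s + s' + 1) * M + (t + t' + 1) * p = M * p := by rw [← h]; ring
    have h2 : p ∣ (s + s' + 1) * M := by
      have h3 : p ∣ (s + s' + 1) * M + (t + t' + 1) * p := by rw [h1]; exact Dvd.intro_left M rfl
      exact (Nat.dvd_add_left (Dvd.intro_left _ rfl)).1 h3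
    have h3 : p ≤ s + s' + 1 := Nat.le_of_dvd (by omega) (hc.dvd_of_dvd_mul_right h2)
    have h4 : p * M ≤ (s + s' + 1) * M := Nat.mul_le_mul_right _ h3
    have h5 : 0 < (t + t' + 1) * p := Nat.mul_pos (by omega) hp
    have h6 : p * M = M * p := Nat.mul_comm _ _
    omega
  · intro hy
    obtain ⟨s, t, hst⟩ := Nat.exists_add_mul_eq_of_gcd_dvd_of_mul_pred_le M p (x + M * p * p)
      (by rw [Nat.gcd_comm, hc.gcd_eq_one]; exact one_dvd _) (by
        have h1 : M.pred * p.pred ≤ M * p := Nat.mul_le_mul (Nat.pred_le _) (Nat.pred_le _)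
        have h2 : M * p * 1 ≤ M * p * p := Nat.mul_le_mul_left _ hp
        omega)
    have hs : p * (s / p) + s % p = s := Nat.div_add_mod s p
    have ha : s % p < p := Nat.mod_lt _ hp
    set b := s / p with hb
    set a := s % p with ha'
    have h1 : a * M + (b * M + t) * p = x + M * p * p := by
      rw [← hst, ← hs]; ring
    rcases le_or_gt (M * p) (b * M + t) with h2 | h2
    · obtain ⟨u, hu⟩ := Nat.exists_eq_add_of_le h2
      rw [hu] at h1
      exact ⟨a, u, by linarith⟩
    · exfalso
      apply hy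
      obtain ⟨u, hu⟩ := Nat.exists_eq_add_of_lt h2
      rw [hu] at h1
      obtain ⟨c, hc2⟩ := Nat.exists_eq_add_of_lt ha
      refine ⟨c, u, ?_⟩
      have h3 : a * M = x + (u + 1) * p := by linarith
      have h4 : M * p = a * M + c * M + M := by rw [hc2]; ring
      linarith

end Pool.Agent.L7h44.GP
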