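import Pool.Agent.L7h44.GP.E1
import Pool.Agent.L7h44.GP.Sym

set_option autoImplicit false

/-! Project GP, part E2. -/

namespace Pool.Agent.L7h44.GP

open Pool.Agent.L7h35.GP

/-- the digraph of Wielandt -/
def a2 (M : ℕ) (x y : Fin M) : Prop :=
  (y : ℕ) + 1 = x ∨ ((x : ℕ) = 0 ∧ (y : ℕ) + 1 = M) ∨ ((x : ℕ) = 1 ∧ (y : ℕ) + 1 = M)

theorem a2_len {M : ℕ} (hM : 2 ≤ M) (z : Fin M) (hz : (z : ℕ) = 0) :
    ∀ (n : ℕ) (x : Fin M), Wk (a2 M) n x z →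
      (1 ≤ (x : ℕ) ∧ ∃ s t, n = x + (s * M + t * (M - 1))) ∨
      ((x : ℕ) = 0 ∧ (n = 0 ∨ ∃ s t, n = M + (s * M + t * (M - 1)))) := by
  intro n
  induction n with
  | zero =>
    intro x h
    have h1 : x = z := h
    subst h1
    exact Or.inr ⟨hz, Or.inl rfl⟩
  | succ n ih =>
    rintro x ⟨y, hxy, hy⟩
    rcases hxy with h | ⟨h, h'⟩ | ⟨h, h'⟩
    · refine Or.inl ⟨by omega, ?_⟩
      rcases ih y hy with ⟨h0, s, t, h1⟩ | ⟨h0, h1 | ⟨s, t, h1⟩⟩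
      · exact ⟨s, t, by omega⟩
      · exact ⟨0, 0, by omega⟩
      · refine ⟨s + 1, t, ?_⟩
        rw [Nat.succ_mul]
        omega
    · refine Or.inr ⟨h, Or.inr ?_⟩
      rcases ih y hy with ⟨h0, s, t, h1⟩ | ⟨h0, h1 | ⟨s, t, h1⟩⟩
      · exact ⟨s, t, by omega⟩
      · omega
      · omega
    · refine Or.inl ⟨by omega, ?_⟩
      rcases ih y hy with ⟨h0, s, t, h1⟩ | ⟨h0, h1 | ⟨s, t, h1⟩⟩
      · refine ⟨s, t + 1, ?_⟩
        rw [Nat.succ_mul]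
        omega
      · omega
      · omega

theorem cop (M : ℕ) (hM : 1 ≤ M) : Nat.Coprime (M - 1) M := by
  obtain ⟨m, rfl⟩ : ∃ m, M = m + 1 := ⟨M - 1, by omega⟩
  simp

theorem s_E2 : S_E2 := by
  intro M hM
  set z : Fin M := ⟨0, by omega⟩ with hz
  set g := (M - 1) * (M - 2) with hg
  have hg' : g = (M - 1) * (M - 1 - 1) := by rw [hg, show M - 1 - 1 = M - 2 by omega]
  have hc := cop M (by omega)
  have hd : ∀ x y : Fin M, (y : ℕ) + 1 = x → a2 M x y := fun x y h => Or.inl h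
  have hdn : Wk (a2 M) (M - 1) ⟨M - 1, by omega⟩ z := desc hd _ _ _ (by simp [hz])
  have hw1 : Wk (a2 M) M z z :=
    Wk_cast (Wk_trans (Wk_one.2 (Or.inr (Or.inl ⟨rfl, by simp only; omega⟩))) hdn) (by omega)
  -- the closed walk of length `M - 1` at the vertex `1`
  have hw2 : Wk (a2 M) (M - 1) ⟨1, by omega⟩ ⟨1, by omega⟩ := by
    have h1 : Wk (a2 M) 1 ⟨1, by omega⟩ ⟨M - 1, by omega⟩ :=
      Wk_one.2 (Or.inr (Or.inr ⟨rfl, by simp only; omega⟩))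
    have h2 : Wk (a2 M) (M - 2) ⟨M - 1, by omega⟩ ⟨1, by omega⟩ :=
      desc hd _ _ _ (by simp only; omega)
    exact Wk_cast (Wk_trans h1 h2) (by omega)
  have hw1' : Wk (a2 M) M ⟨1, by omega⟩ ⟨1, by omega⟩ := by
    have h1 : Wk (a2 M) 1 ⟨1, by omega⟩ z := desc hd _ _ _ (by simp [hz])
    have h2 : Wk (a2 M) 1 z ⟨M - 1, by omega⟩ :=
      Wk_one.2 (Or.inr (Or.inl ⟨rfl, by simp only; omega⟩))
    have h3 : Wk (a2 M) (M - 2) ⟨M - 1, by omega⟩ ⟨1, by omega⟩ :=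
      desc hd _ _ _ (by simp only; omega)
    exact Wk_cast (Wk_trans h1 (Wk_trans h2 h3)) (by omega)
  have hlong : ∀ (x : Fin M) (n : ℕ), 1 ≤ (x : ℕ) → Sg M (M - 1) n → Wk (a2 M) (x + n) x z := by
    rintro x n hx ⟨s, t, rfl⟩
    have h1 : Wk (a2 M) (x - 1) x ⟨1, by omega⟩ := desc hd _ _ _ (by simp only; omega)
    have h2 : Wk (a2 M) 1 ⟨1, by omega⟩ z := desc hd _ _ _ (by simp [hz])
    exact Wk_cast (Wk_trans h1 (Wk_trans (comb hw1' hw2 s t) h2)) (by omega)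
  refine ⟨a2 M, z, by omega, ?_, ?_⟩
  · intro x
    have hx := x.2
    rcases Nat.eq_zero_or_pos (x : ℕ) with h | h
    · have h0 : x = z := Fin.ext h
      rw [h0]
      have h2 : Wk (a2 M) 1 z ⟨M - 1, by omega⟩ :=
        Wk_one.2 (Or.inr (Or.inl ⟨rfl, by simp only; omega⟩))
      have h3 := hlong ⟨M - 1, by omega⟩ g (by simp only; omega) (Sg_large hc (by rw [hg']))
      exact Wk_cast (Wk_trans h2 h3) (by simp only; omega)
    · exact Wk_cast (hlong x (g + M - x) h (Sg_large hc (by rw [← hg']; omega))) (by omega)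
  · intro k hk hk2 hf
    have h1 : Full (a2 M) z (g + M - 1) := Full_le hk (by omega) hf
    rcases a2_len hM z rfl _ _ (h1 z) with ⟨h2, -⟩ | ⟨-, h2 | ⟨s, t, h2⟩⟩
    · simp [hz] at h2
    · omega
    · have h3 : (s * M + t * (M - 1)) + 0 + 1 = g := by omega
      refine (s_SYM M (M - 1) _ 0 (by omega) (by omega) hc ?_).1 ⟨s, t, rfl⟩ (Sg_zero M (M - 1))
      obtain ⟨m, rfl⟩ : ∃ m, M = m + 2 := ⟨M - 2, by omega⟩
      rw [hg] at h3
      simp only [show m + 2 - 1 = m + 1 by omega, show m + 2 - 2 = m by omega] at h3 ⊢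
      have h4 : (m + 2) * (m + 1) = (m + 1) * m + 2 * m + 2 := by ring
      rw [h4, ← h3]
      omega

end Pool.Agent.L7h44.GP
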