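import Pool.Agent.L7h44.GP.E2

set_option autoImplicit false

/-! Project GP, part E3. -/

namespace Pool.Agent.L7h44.GP

open Pool.Agent.L7h35.GP

/-- the digraph of E3 -/
def a3 (M : ℕ) (x y : Fin M) : Prop :=
  (y : ℕ) + 1 = x ∨ ((x : ℕ) = 0 ∧ (y : ℕ) + 1 = M) ∨ ((x : ℕ) = 1 ∧ (y : ℕ) + 1 = M) ∨
    ((x : ℕ) = 2 ∧ (y : ℕ) = 0)

theorem a3_len {M : ℕ} (hM : 3 ≤ M) (z : Fin M) (hz : (z : ℕ) = 0) :
    ∀ (n : ℕ) (x : Fin M), Wk (a3 M) n x z →
      (∃ s t, n = x + (s * M + t * (M - 1))) ∨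
      (1 ≤ (x : ℕ) ∧ ∃ s t, n + 1 = x + (s * M + t * (M - 1))) := by
  intro n
  induction n with
  | zero =>
    intro x h
    have h1 : x = z := h
    subst h1
    exact Or.inl ⟨0, 0, by omega⟩
  | succ n ih =>
    rintro x ⟨y, hxy, hy⟩
    rcases hxy with h | ⟨h, h'⟩ | ⟨h, h'⟩ | ⟨h, h'⟩
    · rcases ih y hy with ⟨s, t, h1⟩ | ⟨h0, s, t, h1⟩
      · exact Or.inl ⟨s, t, by omega⟩
      · exact Or.inr ⟨by omega, s, t, by omega⟩
    · rcases ih y hy with ⟨s, t, h1⟩ | ⟨h0, s, t, h1⟩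
      · refine Or.inl ⟨s + 1, t, ?_⟩
        rw [Nat.succ_mul]
        omega
      · refine Or.inl ⟨s, t + 1, ?_⟩
        rw [Nat.succ_mul]
        omega
    · rcases ih y hy with ⟨s, t, h1⟩ | ⟨h0, s, t, h1⟩
      · refine Or.inl ⟨s, t + 1, ?_⟩
        rw [Nat.succ_mul]
        omega
      · refine Or.inr ⟨by omega, s, t + 1, ?_⟩
        rw [Nat.succ_mul]
        omega
    · rcases ih y hy with ⟨s, t, h1⟩ | ⟨h0, s, t, h1⟩
      · exact Or.inr ⟨by omega, s, t, by omega⟩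
      · omega

theorem s_E3 (hS : S_SYM) : S_E3 := by
  intro M hM
  set z : Fin M := ⟨0, by omega⟩ with hz
  set g := (M - 1) * (M - 2) with hg
  have hg' : g = (M - 1) * (M - 1 - 1) := by rw [hg, show M - 1 - 1 = M - 2 by omega]
  have hc := cop M (by omega)
  have hd : ∀ x y : Fin M, (y : ℕ) + 1 = x → a3 M x y := fun x y h => Or.inl h
  have hdn : Wk (a3 M) (M - 1) ⟨M - 1, by omega⟩ z := desc hd _ _ _ (by simp [hz])
  have hup : Wk (a3 M) 1 z ⟨M - 1, by omega⟩ :=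
    Wk_one.2 (Or.inr (Or.inl ⟨rfl, by simp only; omega⟩))
  have hw1 : Wk (a3 M) M z z := Wk_cast (Wk_trans hup hdn) (by omega)
  -- from `x ≥ 2` the short way
  have hw3 : ∀ x : Fin M, 2 ≤ (x : ℕ) → Wk (a3 M) (x - 1) x z := by
    intro x hx
    have h1 : Wk (a3 M) (x - 2) x ⟨2, by omega⟩ := desc hd _ _ _ (by simp only; omega)
    have h2 : Wk (a3 M) 1 ⟨2, by omega⟩ z := Wk_one.2 (Or.inr (Or.inr (Or.inr ⟨rfl, rfl⟩)))
    exact Wk_cast (Wk_trans h1 h2) (by omega)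
  have hw2 : Wk (a3 M) (M - 1) z z :=
    Wk_cast (Wk_trans hup (hw3 ⟨M - 1, by omega⟩ (by simp only; omega))) (by simp only; omega)
  have hcl : ∀ n, Sg M (M - 1) n → Wk (a3 M) n z z := by
    rintro n ⟨s, t, rfl⟩
    exact comb hw1 hw2 s t
  have hlong : ∀ (x : Fin M) (n : ℕ), Sg M (M - 1) n → Wk (a3 M) (x + n) x z := fun x n hn =>
    Wk_trans (desc hd _ _ _ (by simp [hz])) (hcl n hn)
  have hgid : ∀ u v : ℕ, u + v + 1 = g → u + v + M + (M - 1) = M * (M - 1) := by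
    intro u v h
    obtain ⟨m, rfl⟩ : ∃ m, M = m + 2 := ⟨M - 2, by omega⟩
    rw [hg] at h
    simp only [show m + 2 - 1 = m + 1 by omega, show m + 2 - 2 = m by omega] at h ⊢
    have h4 : (m + 2) * (m + 1) = (m + 1) * m + 2 * m + 2 := by ring
    rw [h4, ← h]
    omega
  have hsym : ∀ u v : ℕ, u + v + 1 = g → ¬ Sg M (M - 1) v → Sg M (M - 1) u := fun u v h hv =>
    (hS M (M - 1) u v (by omega) (by omega) hc (hgid u v h)).2 hv
  have hsmall : ∀ v : ℕ, 1 ≤ v → v < M - 1 → ¬ Sg M (M - 1) v := by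
    rintro v h1 h2 ⟨s, t, h3⟩
    have h5 : s = 0 := by
      by_contra hcon
      have : 1 * M ≤ s * M := Nat.mul_le_mul_right _ (by omega)
      omega
    have h6 : t = 0 := by
      by_contra hcon
      have : 1 * (M - 1) ≤ t * (M - 1) := Nat.mul_le_mul_right _ (by omega)
      omega
    rw [h5, h6] at h3
    omega
  have hM1 : M - 1 ≤ g := by
    rw [hg]
    calc M - 1 = (M - 1) * 1 := (Nat.mul_one _).symm
      _ ≤ (M - 1) * (M - 2) := Nat.mul_le_mul_left _ (by omega)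
  refine ⟨a3 M, z, by omega, ?_, ?_⟩
  · intro x
    have hx := x.2
    rcases Nat.lt_or_ge (x : ℕ) 3 with h | h
    · rcases Nat.lt_or_ge (x : ℕ) 1 with h0 | h0
      · have h1 : x = z := Fin.ext (by simp [hz]; omega)
        rw [h1]
        exact hcl g (Sg_large hc (by rw [hg']))
      rcases Nat.lt_or_ge (x : ℕ) 2 with h1 | h1
      · -- `x = 1`
        have h2 : Wk (a3 M) 1 x ⟨M - 1, by omega⟩ :=
          Wk_one.2 (Or.inr (Or.inr (Or.inl ⟨by omega, by simp only; omega⟩)))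
        have h3 := hw3 ⟨M - 1, by omega⟩ (by simp only; omega)
        have h4 : Sg M (M - 1) (g - (M - 1)) := by
          refine ⟨0, M - 3, ?_⟩
          rw [hg]
          obtain ⟨m, rfl⟩ : ∃ m, M = m + 3 := ⟨M - 3, by omega⟩
          simp only [show m + 3 - 1 = m + 2 by omega, show m + 3 - 2 = m + 1 by omega,
            show m + 3 - 3 = m by omega]
          have h5 : (m + 2) * (m + 1) = m * (m + 2) + (m + 2) := by ring
          omega
        exact Wk_cast (Wk_trans h2 (Wk_trans h3 (hcl _ h4))) (by simp only; omega)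
      · -- `x = 2`
        rcases Nat.lt_or_ge g 2 with h2 | h2
        · omega
        · exact Wk_cast (hlong x (g - 2) (hsym _ 1 (by omega) (hsmall 1 le_rfl (by omega))))
            (by omega)
    · have h1 := Wk_trans (hw3 x (by omega)) (hcl (g - (x - 1))
        (hsym _ (x - 2) (by omega) (hsmall _ (by omega) (by omega))))
      exact Wk_cast h1 (by omega)
  · intro k hk hk2 hf
    have h1 : Full (a3 M) z (g - 1) := Full_le hk (by omega) hf
    rcases a3_len hM z rfl _ _ (h1 z) with ⟨s, t, h2⟩ | ⟨h2, -⟩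
    · simp only [hz] at h2
      have h3 : (s * M + t * (M - 1)) + 0 + 1 = g := by omega
      exact (hS M (M - 1) _ 0 (by omega) (by omega) hc (hgid _ _ h3)).1 ⟨s, t, rfl⟩
        (Sg_zero M (M - 1))
    · simp [hz] at h2

end Pool.Agent.L7h44.GP
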